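import Pool.Agent.TH373.DR2.Puis

set_option autoImplicit false

/-!
# The digits of `π/n`, `e/n`, `√2/n`, `e^(1/n)`, … for almost all `n`

Let `g` be a real function, analytic at `0`, such that `g - g 0` has a zero of finite order `m` at
`0` (that is, `g` is not constant near `0`), let `τ > 0` and let `p n` be arbitrary integers.  We
consider the numbers

  `x n = p n + g(n^(-τ))`,

for instance `π/n`, `e/n`, `√2/n` (`g t = π t`, …, `m = τ = 1`; each of these numbers is normal if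
and only if `π`, `e`, `√2` is), `e^(1/n)`, `√(n^2 + 1)`, `arctan(1/n)`, `log(1 + 1/n)`.  The first
`m τ log_b n` digits of `x n - g 0` are zeros; we consider the windows after them.

Random digits deviate in a window of length `L` by more than `√(λ L)` with a probability
`e^(-cλ)`.  We show that the digits of the numbers `x n`, `n ≤ X`, do the same in all windows of
significant digits up to the place `A log X` at once, in all bases `b ≤ K` and for all words of
length `k ≤ K`.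
-/

namespace Pool.Agent.Results.MP_7e9a3a_nt.AnalyticFamilies

open Finset Pool.Agent.TH373.DR

/-- The `j`-th digit after the point of the real number `x` in base `b` (`j ≥ 1`), that is
`⌊x b^j⌋` modulo `b`. -/
noncomputable def digit (b : ℕ) (x : ℝ) (j : ℕ) : ℤ := ⌊x * (b : ℝ) ^ j⌋ % (b : ℤ)

/-- The number of occurrences of the word `w` of length `k` which begin inside the window of the
digits number `i + 1, …, i + L` of `x`. -/
noncomputable def occ (b k : ℕ) (w : Fin k → Fin b) (x : ℝ) (i L : ℕ) : ℕ :=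
  open Classical in
    ((range L).filter (fun j => ∀ s : Fin k, digit b x (i + j + s + 1) = ((w s : ℕ) : ℤ))).card

/-- For all bases `2 ≤ b ≤ K` and all lengths `1 ≤ k ≤ K`: in every window of digits of `x` in base
`b` which begins after a place `i` with `b^i ≥ D` and ends at most at the place `N`, of length `L`,
say, each word of length `k` occurs `L / b^k` times up to an error `√(λ L)`. -/
def WindowsAfter (K : ℕ) (lam D N x : ℝ) : Prop :=
  ∀ b k : ℕ, 2 ≤ b → b ≤ K → 1 ≤ k → k ≤ K →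
    ∀ (w : Fin k → Fin b) (i L : ℕ), D ≤ (b : ℝ) ^ i → ((i + L : ℕ) : ℝ) ≤ N →
      |(occ b k w x i L : ℝ) - L / (b : ℝ) ^ k| ≤ Real.sqrt (lam * L)

/-- **Theorem.** -/
theorem result (g : ℝ → ℝ) (hg : AnalyticAt ℝ g 0) (m : ℕ)
    (hm : analyticOrderAt (fun t => g t - g 0) 0 = m) (τ : ℝ) (hτ : 0 < τ) (p : ℕ → ℤ)
    (A : ℝ) (K : ℕ) :
    ∃ c : ℝ, 0 < c ∧ ∃ C : ℝ, ∃ X₀ : ℕ, ∀ X : ℕ, X₀ ≤ X → ∀ lam : ℝ, 0 ≤ lam →
      ∃ E : Finset ℕ, (E.card : ℝ) ≤ C * (Real.log X) ^ 3 * X * Real.exp (-(c * lam)) ∧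
        ∀ n : ℕ, 1 ≤ n → n ≤ X → n ∉ E →
          WindowsAfter K lam ((n : ℝ) ^ (m * τ)) (A * Real.log X) (p n + g ((n : ℝ) ^ (-τ))) := by
  classical
  set A' : ℝ := max A 1 with hA'
  have hA'0 : 0 < A' := lt_of_lt_of_le one_pos (le_max_right _ _)
  -- the factorisation
  have hg1 : AnalyticAt ℝ (fun t => g t - g 0) 0 := hg.sub analyticAt_const
  obtain ⟨h1, hh1, h10, hfac⟩ := (hg1.analyticOrderAt_eq_natCast).1 hm
  have hm1 : 1 ≤ m := by
    by_contra hcon
    have hm0 : m = 0 := by omega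
    have := hfac.self_of_nhds
    rw [hm0] at this
    simp at this
    exact h10 this.symm
  set h : ℝ → ℝ := fun t => if t = 0 then h1 0 else (g t - g 0) / t ^ m with hh
  have hev : h =ᶠ[nhds 0] h1 := by
    filter_upwards [hfac] with t ht
    by_cases h0 : t = 0
    · simp [hh, h0]
    · have hp : t ^ m ≠ 0 := pow_ne_zero _ h0
      simp only [hh, h0, if_false]
      rw [ht]
      simp only [sub_zero, smul_eq_mul]
      field_simp
  have hh0 : h 0 = h1 0 := by simp [hh]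
  have hhan : AnalyticAt ℝ h 0 := hh1.congr hev.symm
  have hhne : h 0 ≠ 0 := by rw [hh0]; exact h10
  have hfacx : ∀ t : ℝ, t ≠ 0 → t ^ m * h t = g t - g 0 := by
    intro t ht
    have hp : t ^ m ≠ 0 := pow_ne_zero _ ht
    simp only [hh, ht, if_false]
    field_simp
  set ρ : ℝ := -(m * τ) with hρdef
  have hmR : (1 : ℝ) ≤ m := by exact_mod_cast hm1
  have hρneg : ρ < 0 := by rw [hρdef]; have : 0 < (m : ℝ) * τ := by positivity
                           linarith
  have hρ : ∀ n : ℕ, ρ ≠ n := by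
    intro n hn
    have : (0 : ℝ) ≤ n := by positivity
    linarith
  have hceil : ⌈ρ⌉₊ = 0 := Nat.ceil_eq_zero.2 hρneg.le
  obtain ⟨s, hreg⟩ := reg_puiseux ρ τ hρ hτ h hhan hhne
  set y : ℕ → ℝ := fun n => 1 * ((n : ℝ) ^ (ρ - (0 : ℕ)) * GG ρ τ h 0 ((n : ℝ) ^ (-τ))) + g 0 with hy
  have ey : ∀ n : ℕ, 1 ≤ n → y n = g ((n : ℝ) ^ (-τ)) := by
    intro n hn
    have hn0 : (0 : ℝ) < n := by exact_mod_cast hn
    have ht : (n : ℝ) ^ (-τ) ≠ 0 := (Real.rpow_pos_of_pos hn0 _).ne'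
    have e1 := hfacx _ ht
    have e2 : ((n : ℝ) ^ (-τ)) ^ m = (n : ℝ) ^ ρ := by
      rw [← Real.rpow_natCast, ← Real.rpow_mul hn0.le]
      congr 1
      rw [hρdef]; ring
    rw [e2] at e1
    simp only [hy, GG, Nat.cast_zero, sub_zero, one_mul]
    rw [e1]; ring
  have hDens : ∀ b : ℕ, 2 ≤ b → Dens b y (fun j n => 1 ≤ (b : ℝ) ^ j * (n : ℝ) ^ ρ) := by
    intro b hb
    exact dens_sig hreg (by rw [hceil]; omega) hρneg.le b hb 1 (g 0) one_ne_zero
  have key : Chern3 (fun X lam n => ∃ b < K + 1, ∃ k < K + 1, 2 ≤ b ∧ 1 ≤ k ∧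
      ∃ (w : Fin k → Fin b) (i L : ℕ), 1 ≤ (b : ℝ) ^ i * (n : ℝ) ^ ρ ∧
      ((i + L : ℕ) : ℝ) ≤ A' * Real.log X ∧ Real.sqrt (lam * L) < dv b k w (y n) i L) := by
    apply Chern3.exists
    intro b _
    apply Chern3.exists
    intro k _
    by_cases hb : 2 ≤ b
    · by_cases hk : 1 ≤ k
      · have hb1 : (1 : ℝ) ≤ b := by exact_mod_cast (by omega : 1 ≤ b)
        obtain ⟨c, hc, C, hC, X0, h⟩ := chern_dens b k hb hk y
          (fun j n => 1 ≤ (b : ℝ) ^ j * (n : ℝ) ^ ρ) (fun j n h => by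
            rw [pow_succ]
            have h0 : 0 ≤ (b : ℝ) ^ j * (n : ℝ) ^ ρ := by linarith
            calc (1 : ℝ) ≤ (b : ℝ) ^ j * (n : ℝ) ^ ρ := h
              _ ≤ ((b : ℝ) ^ j * (n : ℝ) ^ ρ) * b := le_mul_of_one_le_right h0 hb1
              _ = _ := by ring) (hDens b hb) A' hA'0
        exact ⟨c, hc, C, hC, X0, fun X hX lam hlam S hS => h X hX lam hlam S (fun n hn => by
          obtain ⟨h1, h2, _, _, h3⟩ := hS n hn
          exact ⟨h1, h2, h3⟩)⟩
      · exact Chern3.of_false (fun X lam n h => hk h.2.1)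
    · exact Chern3.of_false (fun X lam n h => hb h.1)
  obtain ⟨c, hc, C, hC, X0, hmain⟩ := key
  refine ⟨c, hc, C, max X0 1, fun X hX lam hlam => ?_⟩
  have hX0 := (le_max_left X0 1).trans hX
  have hX1 : 1 ≤ X := (le_max_right X0 1).trans hX
  have hlog : 0 ≤ Real.log X := Real.log_nonneg (by exact_mod_cast hX1)
  set E : Finset ℕ := (Icc 1 X).filter (fun n => ∃ b < K + 1, ∃ k < K + 1, 2 ≤ b ∧ 1 ≤ k ∧
      ∃ (w : Fin k → Fin b) (i L : ℕ), 1 ≤ (b : ℝ) ^ i * (n : ℝ) ^ ρ ∧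
      ((i + L : ℕ) : ℝ) ≤ A' * Real.log X ∧ Real.sqrt (lam * L) < dv b k w (y n) i L) with hEdef
  refine ⟨E, hmain X hX0 lam hlam E (fun n hn => ?_),
    fun n h1 h2 hnE b k hb hbK hk hkK w i L hi hL2 => ?_⟩
  · rw [hEdef, mem_filter, mem_Icc] at hn
    exact ⟨hn.1.1, hn.1.2, hn.2⟩
  · by_contra hcon
    push Not at hcon
    apply hnE
    rw [hEdef, mem_filter, mem_Icc]
    have hn0 : (0 : ℝ) < n := by exact_mod_cast h1
    refine ⟨⟨h1, h2⟩, b, by omega, k, by omega, hb, hk, w, i, L, ?_, ?_, ?_⟩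
    · have e1 : (n : ℝ) ^ (m * τ) * (n : ℝ) ^ ρ = 1 := by
        rw [← Real.rpow_add hn0, hρdef]; simp
      rw [← e1]
      exact mul_le_mul_of_nonneg_right hi (by positivity)
    · exact hL2.trans (mul_le_mul_of_nonneg_right (le_max_left _ _) hlog)
    · have e2 : dv b k w (y n) i L = |(occ b k w (p n + g ((n : ℝ) ^ (-τ))) i L : ℝ)
          - L / (b : ℝ) ^ k| := by
        rw [← dv_add_int b k hb w (y n) (p n) i L, ey n h1]
        rw [add_comm (g ((n : ℝ) ^ (-τ))) (p n : ℝ)]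
        unfold dv oc occ digit
        rfl
      rw [e2]
      exact hcon

end Pool.Agent.Results.MP_7e9a3a_nt.AnalyticFamilies
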