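import Pool.Agent.TH768.DG.Exp

/-!
# Common linear recurrences of the digits of powers of `e`

The definitions are in `Pool.Agent.TH768.DG.Main`: `digit`, `CommonRecurrence` (the first `L` terms
of `n` sequences satisfy one linear recurrence of order `m` with the same rational coefficients for
all the sequences), `commonOrder b x k L` (the least order of a common recurrence for the first
`L` digits of `x_1, …, x_n` in base `b`, after changes in at most `k` places; in the theory of
pseudorandom multisequences this is the joint linear complexity, for `k > 0` the joint `k`-error
linear complexity). For random digits it is about `n / (n + 1) * L` for `k = 0`.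

For `n` distinct powers `e^{κ_1}, …, e^{κ_n}` (nonzero integers `κ_j`, positive or negative) it has
this value up to `o(L)`, uniformly in the base. So the digits of the powers of `e` are as
independent of each other as possible from this point of view: for instance there is no recurrence
for two of them which is much shorter than `2 L / 3`, while each of them has recurrences of order
about `L / 2`.

Proof. A common recurrence of order `m` gives by Siegel's lemma a common recurrence of slightly
larger order with small integer coefficients, and hence simultaneous rational approximations of the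
`x_j` with the same denominator (starting files `Pool.Agent.W47.JL`, there used for one number
only). The measure of linear independence of the powers of `e` with the exponent of random numbers
(`Pool.Agent.W472.AC.e_meas`) is turned into a bound for simultaneous approximations
(transference). For the upper bound the dual system of linear equations is shown to be regular.
-/

set_option autoImplicit false

namespace Pool.Agent.Results.MP_7e9a3a_nt.CommonRecurrence

open Finset Pool.Agent.TH768.DG

/-- Let `κ_1, …, κ_n` be distinct nonzero integers, `n ≥ 1`.

(1) For every `ε > 0` there is `L₀` such that for all `L ≥ L₀` and all bases `b ≥ 2` the least order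
of a common linear recurrence over `ℚ` of the first `L` digits of the `n` numbers `e^{κ_j}` differs
from `n / (n + 1) * L` by at most `ε L`.

(2) For every `μ > 1 + 1 / n` there is `C > 0` such that for all bases `b ≥ 2`, all `k` and all `L`,
the least order `E` of a common linear recurrence of these digits after changes in at most `k`
places satisfies `L ≤ (μ + μ^2 + ⋯ + μ^(k+1)) (E + C √((E + 1) log (E + 2)))`. -/
theorem result (n : ℕ) (hn : 1 ≤ n) (κ : Fin n → ℤ) (hκ : Function.Injective κ)
    (h0 : ∀ j, κ j ≠ 0) :
    (∀ ε : ℝ, 0 < ε → ∃ L₀ : ℕ, ∀ L : ℕ, L₀ ≤ L → ∀ b : ℕ, 2 ≤ b →
      |(commonOrder b (fun j => Real.exp (κ j)) 0 L : ℝ) - n / ((n : ℝ) + 1) * L| ≤ ε * L) ∧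
    (∀ μ : ℝ, 1 + 1 / (n : ℝ) < μ → ∃ C : ℝ, 0 < C ∧ ∀ b : ℕ, 2 ≤ b → ∀ k L : ℕ,
      (L : ℝ) ≤ (∑ i ∈ range (k + 1), μ ^ (i + 1)) *
        (commonOrder b (fun j => Real.exp (κ j)) k L +
          C * Real.sqrt (((commonOrder b (fun j => Real.exp (κ j)) k L : ℝ) + 1) *
            Real.log ((commonOrder b (fun j => Real.exp (κ j)) k L : ℝ) + 2)))) :=
  ⟨fun ε hε => two_sided hn _ (normal_exp κ hκ h0) ε hε,
    fun μ hμ => lower_mu hn _ (normal_exp κ hκ h0) μ hμ⟩

end Pool.Agent.Results.MP_7e9a3a_nt.CommonRecurrence
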