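import Mathlib
import Pool.Agent.TH796.Fin.Fin8

set_option autoImplicit false

/-!
# The digits of `e` and `π` in multiplicatively independent bases

For every infinite set `S` of integers there is an integer `c` such that for every base `b` which is
multiplicatively independent of `c` the number `π` is transcendental over the field generated by all
real numbers which have `O(n)` different blocks of `n` digits, `n ∈ S`, in base `b` or in a base
multiplicatively dependent on `b`; the same for `e`.
-/

namespace Pool.Agent.Results.MP_7e9a3a_nt.IndependentBases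

/-- the digit of index `n + 1` after the point in the base `b` expansion of `x` -/
noncomputable def digit (b : ℕ) (x : ℝ) (n : ℕ) : ℤ := ⌊x * (b : ℝ) ^ (n + 1)⌋ % (b : ℤ)

/-- the number of different blocks of `n` consecutive digits (after the point) of `x` in base `b` -/
noncomputable def blocks (b : ℕ) (x : ℝ) (n : ℕ) : ℕ :=
  (Set.range fun i => fun j : Fin n => digit b x (i + j)).ncard

/-- `a` and `b` are multiplicatively independent -/
def Independent (a b : ℕ) : Prop := ∀ k l : ℕ, a ^ k = b ^ l → k = 0 ∧ l = 0

/-- `x` is algebraic over the ring `ℤ[z]`, equivalently over the field `ℚ(z)` -/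
def AlgebraicOver (z x : ℝ) : Prop := IsAlgebraic (Algebra.adjoin ℤ ({z} : Set ℝ)) x

/-- the height of an integer polynomial: the largest absolute value of a coefficient -/
def height (P : Polynomial ℤ) : ℕ := P.support.sup fun i => (P.coeff i).natAbs

/-- Mahler's U-numbers: for some degree `d` and every exponent `w` there are infinitely many
`P ∈ ℤ[X]` of degree at most `d` with `0 < |P(x)| ≤ (height P) ^ (-w)` -/
def UNumber (x : ℝ) : Prop :=
  ∃ d : ℕ, ∀ w : ℕ, {P : Polynomial ℤ | P.natDegree ≤ d ∧ 0 < |Polynomial.aeval x P| ∧
    |Polynomial.aeval x P| * (height P : ℝ) ^ w ≤ 1}.Infinite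

/-- the field generated by all real numbers which in some base `b ∈ A` have at most `C n` different
blocks of `n` digits for all `n ∈ S`; `b` and `C` may depend on the number -/
noncomputable def lowField (S A : Set ℕ) : Subfield ℝ :=
  Subfield.closure {x | ∃ b ∈ A, ∃ C : ℝ, ∀ n ∈ S, (blocks b x n : ℝ) ≤ C * n}

/-- the subgroup of the multiplicative group of `ℚ` generated by `A` -/
def group (A : Set ℕ) : Subgroup ℚˣ := Subgroup.closure {u | ∃ b ∈ A, ((u : ℚˣ) : ℚ) = b}

/-- `z` is transcendental over the field `K`, and no irrational number algebraic over `ℚ(z)` is in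
`K` -/
def Free (K : Subfield ℝ) (z : ℝ) : Prop :=
  Transcendental K z ∧ ∀ x : ℝ, Irrational x → AlgebraicOver z x → x ∉ K

/-- Let `z` be `e`, `π`, the logarithm of a positive rational number `q ≠ 1` or any transcendental
real number which is not a U-number.

(1) For every infinite set `S` of integers there is an integer `c ≥ 2` such that for every base
`b ≥ 2` multiplicatively independent of `c`, the number `z` is transcendental over the field
generated by all real numbers which have `O(n)` different blocks of `n` digits, `n ∈ S`, in base `b`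
or in some base which is multiplicatively dependent on `b`, and no irrational number algebraic over
`ℚ(z)` is in this field. In particular no such number has itself `O(n)` different blocks of `n`
digits in base `b`, `n ∈ S`.

(2) If `A` and `B` are sets of bases which generate subgroups of the multiplicative group of `ℚ`
with trivial intersection, then the same holds for one of the fields `lowField S A` and
`lowField S B`.

(3) Let `x` and `y` be irrational real numbers which are algebraic over `ℚ(z)` (for instance
`x = y = z`) and `a, b ≥ 2` multiplicatively independent integers. For every `C` and every large `n`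
there are more than `C n` different blocks of `n` digits of `x` in base `a`, or of `y` in base `b`. -/
theorem result (z : ℝ) (hz : z = Real.exp 1 ∨ z = Real.pi ∨
      (∃ q : ℚ, 0 < q ∧ q ≠ 1 ∧ z = Real.log q) ∨ (Transcendental ℚ z ∧ ¬ UNumber z)) :
    (∀ S : Set ℕ, S.Infinite → ∃ c : ℕ, 2 ≤ c ∧ ∀ b : ℕ, 2 ≤ b → Independent b c →
      Free (lowField S {d | 2 ≤ d ∧ ¬ Independent d b}) z ∧
      ∀ x : ℝ, Irrational x → AlgebraicOver z x → ∀ C : ℝ, ∃ n ∈ S, C * n < blocks b x n) ∧
    (∀ S : Set ℕ, S.Infinite → ∀ A B : Set ℕ, (∀ b ∈ A, 2 ≤ b) → (∀ b ∈ B, 2 ≤ b) →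
      group A ⊓ group B = ⊥ → Free (lowField S A) z ∨ Free (lowField S B) z) ∧
    (∀ x y : ℝ, Irrational x → Irrational y → AlgebraicOver z x → AlgebraicOver z y →
      ∀ a b : ℕ, 2 ≤ a → 2 ≤ b → Independent a b → ∀ C : ℝ, ∃ n₀ : ℕ, ∀ n ≥ n₀,
        C * n < blocks a x n ∨ C * n < blocks b y n) := by
  have hm : Pool.Agent.TH456.TM.MeasT (z : ℂ) := by
    rcases hz with h | h | h | ⟨h1, h2⟩
    · exact Pool.Agent.TH796.AL.Ai.measT_of (Or.inl h)
    · exact Pool.Agent.TH796.AL.Ai.measT_of (Or.inr (Or.inl h))
    · exact Pool.Agent.TH796.AL.Ai.measT_of (Or.inr (Or.inr h))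
    · exact Pool.Agent.TH796.AL.Ai.meas_of_not_unumber h1 h2
  have ht : Transcendental ℚ z := Pool.Agent.TH796.AL.Alg.transc_of_measT hm
  have hU : ¬ Pool.Agent.TH796.AL.Ai.UNumber z := Pool.Agent.TH796.AL.Ai.not_unumber hm
  refine ⟨fun S hS => ?_, fun S hS A B hA hB hAB => ?_, fun x y hx hy hxz hyz a b ha hb hab C =>
    Pool.Agent.TH796.AL.Ai.digits_meas hm ha hb hab hxz hyz hx hy C⟩
  · obtain ⟨c, hc, h⟩ := Pool.Agent.TH796.Fin.free_cls ht hU hS
    refine ⟨c, hc, fun b hb hbc => ⟨h b hb hbc, fun x hx hxz C => ?_⟩⟩
    by_contra hcon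
    push Not at hcon
    exact (h b hb hbc).2 x hx hxz (Subfield.subset_closure
      ⟨b, ⟨hb, Pool.Agent.TH796.Fin.not_indep_self b⟩, C, hcon⟩)
  · exact Pool.Agent.TH796.AL.Alg.free_pair ht hU hA hB hAB hS

end Pool.Agent.Results.MP_7e9a3a_nt.IndependentBases
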