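import Mathlib
import Pool.Agent.TH461.AL.Nl
import Pool.Agent.H847R3.SuppF
import Pool.Agent.W47.LC.Ln2

/-!
# Words in the multiples `q ^ n x`, `x = e, π, √2, ln 2, …`, for almost all `n`

For `b, q` coprime and `x = e`, `π`, `√2`, `ln 2` or any irrational number which is not a Liouville
number: for almost all `n < M` (all but `δ M`) every word of `k` base `b` digits occurs at least
`M ^ (1 - ε)` times among the first `C M` digits of `q ^ n x` behind the point.
-/

set_option autoImplicit false

open Filter Topology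

namespace Pool.Agent.Results.MP_7e9a3a_nt.WordsAlmostAllMultiples

open Classical in
/-- Let `b, q ≥ 2` be coprime and let `x` be `e`, `π`, `√2`, `ln 2`, or any irrational number which
is not a Liouville number.  There is a number `C` such that for all `k`, `ε, δ > 0` and all large
`M`, for all but at most `δ M` of the `n < M`: every word of `k` base `b` digits (the word with value
`W < b ^ k`, with leading zeros) occurs in the base `b` expansion of `q ^ n x` right after the
`i`-th digit behind the point for at least `M ^ (1 - ε)` numbers `i < C M`. -/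
theorem result (b q : ℕ) (hb : 2 ≤ b) (hq : 2 ≤ q) (hco : Nat.Coprime b q) (x : ℝ)
    (hx : x = Real.exp 1 ∨ x = Real.pi ∨ x = √2 ∨ x = Real.log 2 ∨
      (Irrational x ∧ ¬ Liouville x)) :
    ∃ C : ℕ, ∀ (k : ℕ) (ε δ : ℝ), 0 < ε → 0 < δ → ∃ M0 : ℕ, ∀ M : ℕ, M0 ≤ M →
      (((Finset.range M).filter (fun n : ℕ => ¬ ∀ W < b ^ k, (M : ℝ) ^ (1 - ε) ≤
        (((Finset.range (C * M)).filter (fun i : ℕ =>
          ⌊(b : ℝ) ^ (i + k) * ((q : ℝ) ^ n * x)⌋ % ((b : ℤ) ^ k) = (W : ℤ))).card : ℝ))).card : ℝ)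
        ≤ δ * M := by
  have hgood : Irrational x ∧ ¬ Liouville x := by
    rcases hx with rfl | rfl | rfl | rfl | h
    · exact Pool.Agent.H847R3.XpXq.e_good
    · exact Pool.Agent.H847R3.XpXq.pi_good
    · exact Pool.Agent.H847R3.XpXq.sqrt_two_good
    · obtain ⟨Q0, hQ0⟩ := eventually_atTop.1 (Pool.Agent.W47.LC.ln2_eventually.and
        (eventually_ge_atTop 1))
      have h : ∀ Q : ℕ, Q0 ≤ Q → ∀ P : ℤ, (Q : ℝ) ^ (-(3.211 : ℝ)) ≤ |Q * Real.log 2 - P| := by
        intro Q hQ P
        obtain ⟨h3, h4⟩ := hQ0 Q hQ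
        have hQ1 : (0 : ℝ) < Q := by exact_mod_cast h4
        rw [Real.rpow_def_of_pos hQ1]
        have e : Real.log Q * -(3.211 : ℝ) = -(3.211 * Real.log Q) := by ring
        rw [e]
        exact h3 P
      exact ⟨Pool.Agent.H847R3.XpXq.irrational_of_dio Q0 h,
        Pool.Agent.H847R3.XpXq.not_liouville_of_dio Q0 h⟩
    · exact h
  exact Pool.Agent.TH461.AL.Nl.nl_words hb hq hco hgood.1 hgood.2

end Pool.Agent.Results.MP_7e9a3a_nt.WordsAlmostAllMultiples
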